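import Pool.Agent.H81.FX.Targets

/-!
# Row CRM of the board fcx (helper81, MP_2822c4_an)

Crossing hubs lie on the tree.
-/

set_option autoImplicit false

namespace Pool.Agent.H1.FCX

open Pool.Agent.H81.FX Finset

theorem pf_CRM (hWRD : T_WRD) (hCNC : T_CNC) : T_CRM := by
  intro ι _ S β hβ τ z s h1 h2
  constructor
  · intro hz
    constructor
    · intro h
      apply hz
      show z.toWord.getLast? = some s
      rw [h]
      simp only [iv, Bool.not_not]
    · show τ < ∑ h ∈ S, if Canc h (z * el (iv s)) then β h else 0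
      refine lt_of_lt_of_le h1 (Finset.sum_le_sum fun h _ => ?_)
      by_cases e : Ends (h * z) s
      · rw [if_pos e, if_pos ((hCNC ι h z 1 1 s).1 hz e)]
      · rw [if_neg e]
        split_ifs
        · exact hβ h
        · exact le_rfl
  · intro hz
    have he : (el s)⁻¹ = el (iv s) := (hWRD ι z s s).2.2.2.2.2.2.2.2
    have hc : z * el (iv s) * el s = z := by rw [← he, inv_mul_cancel_right]
    refine ⟨?_, ?_⟩
    · rw [← he]
      exact (hWRD ι z s s).2.2.2.2.2.1 hz
    · rw [hc]
      show τ < ∑ h ∈ S, if Canc h z then β h else 0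
      refine lt_of_lt_of_le h2 (Finset.sum_le_sum fun h _ => ?_)
      by_cases e : Ends (h * z) s
      · rw [if_pos e]
        split_ifs
        · exact hβ h
        · exact le_rfl
      · rw [if_neg e, if_pos ((hCNC ι h z 1 1 s).2.1 hz e)]

end Pool.Agent.H1.FCX
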