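import Pool.Agent.H81.FX.Targets

/-!
# Row JAY of the board fcx (helper81, MP_2822c4_an)

The direction of the largest group.
-/

set_option autoImplicit false

namespace Pool.Agent.H1.FCX

open Pool.Agent.H81.FX Finset

theorem mem_of_G_pos {ι : Type} [DecidableEq ι] {t : List (Lt ι)} {k : FreeGroup ι → ℝ}
    {x : FreeGroup ι} {s : Lt ι} (h : 0 < G t k x s) : s ∈ t := by
  by_contra hs
  have h0 : G t k x s = 0 := by
    unfold G
    refine Finset.sum_eq_zero fun n _ => ?_
    rw [if_neg]
    intro h1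
    exact hs (List.mem_of_getElem? h1)
  linarith

theorem pf_JAY : T_JAY := by
  classical
  intro ι _ t ht k _
  have h1 : ∀ x : FreeGroup ι, ∃ j : Lt ι, ∀ s, Up x s → 0 < G t k x s →
      Up x j ∧ G t k x s ≤ G t k x j := by
    intro x
    rcases (t.toFinset.filter (fun s => Up x s)).eq_empty_or_nonempty with h | h
    · refine ⟨t.head ht, fun s hs hG => ?_⟩
      exfalso
      have h2 : s ∈ t.toFinset.filter (fun s => Up x s) :=
        Finset.mem_filter.mpr ⟨List.mem_toFinset.mpr (mem_of_G_pos hG), hs⟩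
      rw [h] at h2
      exact absurd h2 (Finset.notMem_empty _)
    · obtain ⟨j, hj, hmax⟩ := Finset.exists_max_image _ (fun s => G t k x s) h
      refine ⟨j, fun s hs hG => ⟨(Finset.mem_filter.mp hj).2, hmax s ?_⟩⟩
      exact Finset.mem_filter.mpr ⟨List.mem_toFinset.mpr (mem_of_G_pos hG), hs⟩
  choose J hJ using h1
  exact ⟨J, fun x s => hJ x s⟩

end Pool.Agent.H1.FCX
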