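import Pool.Agent.H81.FX.Targets

/-!
# Row ONEP of the board fcx (helper81, MP_2822c4_an)

One word: only boundedly many letters have weights whose walkers overlap `V`.
-/

set_option autoImplicit false

namespace Pool.Agent.H1.FCX

open Pool.Agent.H81.FX Finset Filter Topology

/-- The merged weights. -/
noncomputable def onw {ι : Type} [DecidableEq ι] (t : List (Lt ι)) (J : Finset (Lt ι))
    (w : Lt ι → ℕ → ℝ) (n : ℕ) : ℝ :=
  match t[n]? with
  | none => 0
  | some s => if s ∈ J then w s n else 0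

theorem onw_some {ι : Type} [DecidableEq ι] (t : List (Lt ι)) (J : Finset (Lt ι))
    (w : Lt ι → ℕ → ℝ) (n : ℕ) (s : Lt ι) (h : t[n]? = some s) :
    onw t J w n = if s ∈ J then w s n else 0 := by
  unfold onw
  rw [h]

theorem pf_ONEP (hALL : T_ALL) : T_ONEP := by
  intro κ V₀ δ₂ hκ hV hδ
  have hθ : 0 < δ₂ / (2 * κ * V₀) := by positivity
  obtain ⟨Λ, hΛ, hA⟩ := hALL κ (δ₂ / (2 * κ * V₀)) hκ hθ
  have hev : ∀ᶠ N : ℕ in atTop, Λ N / N < δ₂ / 4 :=
    (hΛ.eventually (gt_mem_nhds (by positivity : (0 : ℝ) < δ₂ / 4)))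
  obtain ⟨B₁, hB₁⟩ := eventually_atTop.1 hev
  obtain ⟨B₂, hB₂⟩ := exists_nat_gt (8 * V₀ / δ₂)
  refine ⟨B₁ + B₂, ?_⟩
  intro ι _ t ht S β hβ X V hVm J w hw0 hwt hov
  by_contra hlt
  push Not at hlt
  obtain ⟨hV1, hV2, hV3⟩ := hVm
  have hN1 : 1 ≤ J.card := by omega
  have hNB1 := hB₁ J.card (by omega)
  have hNpos : (0 : ℝ) < J.card := by exact_mod_cast hN1
  have hNB2 : 8 * V₀ / δ₂ < J.card := lt_trans hB₂ (by exact_mod_cast (by omega : B₂ < J.card))
  have hmain := hA J.card hN1 ι t ht (onw t J w) ?_ J le_rfl ?_ ?_ S β hβ X V fun x _ => hV1 x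
  · have h1 : ∀ s ∈ J, ∀ x ∈ X, min (V x) (Fw t (w s) β x s) =
        min (V x) (Fw t (onw t J w) β x s) := by
      intro s hs x _
      congr 1
      unfold Fw
      refine Finset.sum_congr rfl fun n _ => ?_
      by_cases e : t[n]? = some s
      · rw [if_pos e, if_pos e, onw_some t J w n s e, if_pos hs]
      · rw [if_neg e, if_neg e]
    have h2 : (J.card : ℝ) * δ₂ ≤ ∑ s ∈ J, ∑ x ∈ X, min (V x) (Fw t (onw t J w) β x s) := by
      rw [← nsmul_eq_mul]
      refine Finset.card_nsmul_le_sum _ _ _ fun s hs => ?_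
      rw [← Finset.sum_congr rfl (h1 s hs)]
      exact hov s hs
    have h3 : κ * (δ₂ / (2 * κ * V₀)) = δ₂ / (2 * V₀) := by
      field_simp
    have h4 : (2 + κ * (δ₂ / (2 * κ * V₀)) * J.card) * ∑ x ∈ X, V x ≤
        (2 + δ₂ / (2 * V₀) * J.card) * V₀ := by
      rw [h3]
      exact mul_le_mul_of_nonneg_left hV3 (by positivity)
    have h5 : (2 + δ₂ / (2 * V₀) * J.card) * V₀ = 2 * V₀ + δ₂ / 2 * J.card := by
      field_simp
    have h6 : Λ J.card < δ₂ / 4 * J.card := (div_lt_iff₀ hNpos).1 hNB1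
    have h7 : 8 * V₀ < J.card * δ₂ := (div_lt_iff₀ hδ).1 hNB2
    nlinarith
  · intro n hn
    have e : t[n]? = some t[n] := List.getElem?_eq_getElem hn
    rw [onw_some t J w n _ e]
    split_ifs with h
    · exact hw0 _ h n hn
    · exact le_rfl
  · intro s hs
    have : Wt t (onw t J w) s = Wt t (w s) s := by
      unfold Wt
      refine Finset.sum_congr rfl fun n _ => ?_
      by_cases e : t[n]? = some s
      · rw [if_pos e, if_pos e, onw_some t J w n s e, if_pos hs]
      · rw [if_neg e, if_neg e]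
    rw [this]
    exact hwt s hs
  · intro n s e hs
    rw [onw_some t J w n s e, if_neg hs]

end Pool.Agent.H1.FCX
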