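import Pool.Agent.H81.FX.Targets

/-!
# Row POW of the board fcx (helper81, MP_2822c4_an)

Sums of different powers of two.
-/

set_option autoImplicit false

namespace Pool.Agent.H1.FCX

open Pool.Agent.H81.FX Finset

theorem pow_aux (C : Finset ℤ) : ∀ c₀ : ℤ, (∀ c ∈ C, c₀ ≤ c) →
    ∑ c ∈ C, (2 : ℝ) ^ (-c) ≤ 2 * (2 : ℝ) ^ (-c₀) := by
  induction C using Finset.induction_on_min with
  | empty =>
    intro c₀ _
    rw [Finset.sum_empty]
    positivity
  | insert a C ha ih =>
    intro c₀ hc₀
    have hn : a ∉ C := fun h => lt_irrefl _ (ha a h)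
    rw [Finset.sum_insert hn]
    have h1 := ih (a + 1) fun c hc => ha c hc
    have h2 : (2 : ℝ) * (2 : ℝ) ^ (-(a + 1)) = (2 : ℝ) ^ (-a) := by
      rw [neg_add, zpow_add₀ (by norm_num)]
      norm_num
      ring
    have h3 : (2 : ℝ) ^ (-a) ≤ (2 : ℝ) ^ (-c₀) := by
      apply zpow_le_zpow_right₀ (by norm_num)
      have := hc₀ a (Finset.mem_insert_self _ _)
      omega
    linarith

theorem pf_POW : T_POW := by
  intro C M hM hM0
  rcases C.eq_empty_or_nonempty with h | h
  · rw [h, Finset.sum_empty]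
    linarith
  · have h1 := pow_aux C (C.min' h) fun c hc => Finset.min'_le _ _ hc
    have h2 := hM _ (Finset.min'_mem C h)
    linarith

end Pool.Agent.H1.FCX
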